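import Mathlib


namespace Pool.Agent.H.MP_a9d09b_co

open Finset

/-- support of the counterexample tensor -/
def Sup {a : ℕ} (x : Fin 4 → Bool × Fin a) : Prop :=
  ((x 0).1 = false ∧ x 0 = x 1 ∧ (x 2).1 = false ∧ x 2 = x 3) ∨
  ((x 0).1 = true ∧ x 0 = x 2 ∧ (x 1).1 = true ∧ x 1 = x 3)

lemma sphere (k M : ℕ) : ∃ P : Finset ((Fin k → Fin M) × (Fin k → Fin M)),
    M ^ (2 * k) ≤ (k * M ^ 2 + 1) ^ 2 * P.card ∧
    ∀ p1 ∈ P, ∀ p2 ∈ P, ∀ p3 ∈ P, ∀ p4 ∈ P,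
      (∀ j, (p1.1 j : ℕ) + p1.2 j = p2.1 j + p2.2 j) →
      (∀ j, (p3.2 j : ℕ) + p4.1 j = p4.2 j + p3.1 j) →
      p1.1 = p3.1 → p2.2 = p4.2 → p1 = p2 ∧ p1 = p3 ∧ p1 = p4 := by
  classical
  let st : (Fin k → Fin M) × (Fin k → Fin M) → ℕ × ℕ :=
    fun p => (∑ j, (p.1 j : ℕ) * p.1 j, ∑ j, (p.1 j : ℕ) * p.2 j)
  have hb : ∀ u v : Fin k → Fin M, ∑ j, (u j : ℕ) * v j < k * M ^ 2 + 1 := by
    intro u v
    have : ∑ j, (u j : ℕ) * v j ≤ ∑ _j : Fin k, M ^ 2 :=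
      Finset.sum_le_sum (fun j _ => by
        rw [pow_two]; exact Nat.mul_le_mul (u j).2.le (v j).2.le)
    simp at this
    omega
  have hmap : ∀ p ∈ (univ : Finset ((Fin k → Fin M) × (Fin k → Fin M))),
      st p ∈ range (k * M ^ 2 + 1) ×ˢ range (k * M ^ 2 + 1) := by
    intro p _
    simp only [st, mem_product, mem_range]
    exact ⟨hb _ _, hb _ _⟩
  obtain ⟨s, -, hs⟩ := Finset.exists_max_image (range (k * M ^ 2 + 1) ×ˢ range (k * M ^ 2 + 1))
    (fun s => (univ.filter (fun p => st p = s)).card) (by simp)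
  refine ⟨univ.filter (fun p => st p = s), ?_, ?_⟩
  · have h1 := Finset.card_eq_sum_card_fiberwise hmap
    have h2 := Finset.sum_le_card_nsmul _ _ _ hs
    rw [← h1] at h2
    simp only [card_univ, Fintype.card_prod, Fintype.card_pi, Fintype.card_fin, prod_const,
      card_product, card_range, smul_eq_mul] at h2
    rw [two_mul, pow_add, pow_two]
    exact h2
  · intro p1 h1 p2 h2 p3 h3 p4 h4 e1 e2 e3 e4
    simp only [mem_filter, mem_univ, true_and] at h1 h2 h3 h4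
    obtain ⟨c1, d1⟩ := p1
    obtain ⟨c2, d2⟩ := p2
    obtain ⟨c3, d3⟩ := p3
    obtain ⟨c4, d4⟩ := p4
    simp only at e1 e2 e3 e4
    subst e3 e4
    have a12 : ∑ j, ((c1 j : ℕ) : ℤ) * (c1 j : ℕ) = ∑ j, ((c2 j : ℕ) : ℤ) * (c2 j : ℕ) := by
      have := congrArg Prod.fst (h1.trans h2.symm)
      exact_mod_cast this
    have a14 : ∑ j, ((c1 j : ℕ) : ℤ) * (c1 j : ℕ) = ∑ j, ((c4 j : ℕ) : ℤ) * (c4 j : ℕ) := by
      have := congrArg Prod.fst (h1.trans h4.symm)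
      exact_mod_cast this
    have a13 : ∑ j, ((c1 j : ℕ) : ℤ) * (d1 j : ℕ) = ∑ j, ((c1 j : ℕ) : ℤ) * (d3 j : ℕ) := by
      have := congrArg Prod.snd (h1.trans h3.symm)
      exact_mod_cast this
    have key : ∑ j, ((((d1 j : ℕ) : ℤ) - (d2 j : ℕ)) ^ 2 + (((d2 j : ℕ) : ℤ) - (d3 j : ℕ)) ^ 2)
        = 0 := by
      have h5 : ∀ j, ((((d1 j : ℕ) : ℤ) - (d2 j : ℕ)) ^ 2 + (((d2 j : ℕ) : ℤ) - (d3 j : ℕ)) ^ 2) =
          ((c2 j : ℕ) : ℤ) * (c2 j : ℕ) + ((c4 j : ℕ) : ℤ) * (c4 j : ℕ)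
          - 2 * (((c1 j : ℕ) : ℤ) * (c1 j : ℕ)) - 2 * (((c1 j : ℕ) : ℤ) * (d1 j : ℕ))
          + 2 * (((c1 j : ℕ) : ℤ) * (d3 j : ℕ)) := by
        intro j
        have f1 : ((c2 j : ℕ) : ℤ) = (c1 j : ℕ) + (d1 j : ℕ) - (d2 j : ℕ) := by
          have := e1 j; omega
        have f2 : ((c4 j : ℕ) : ℤ) = (c1 j : ℕ) + (d2 j : ℕ) - (d3 j : ℕ) := by
          have := e2 j; omega
        rw [f1, f2]; ring
      simp only [h5, Finset.sum_add_distrib, Finset.sum_sub_distrib, ← Finset.mul_sum]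
      linarith
    rw [Finset.sum_eq_zero_iff_of_nonneg (fun j _ => by positivity)] at key
    have k1 : d1 = d2 := by
      funext j
      have := key j (mem_univ j)
      have h6 : (((d1 j : ℕ) : ℤ) - (d2 j : ℕ)) = 0 := by nlinarith [sq_nonneg (((d1 j : ℕ) : ℤ) - (d2 j : ℕ)), sq_nonneg (((d2 j : ℕ) : ℤ) - (d3 j : ℕ))]
      apply Fin.ext; omega
    have k2 : d2 = d3 := by
      funext j
      have := key j (mem_univ j)
      have h6 : (((d2 j : ℕ) : ℤ) - (d3 j : ℕ)) = 0 := by nlinarith [sq_nonneg (((d1 j : ℕ) : ℤ) - (d2 j : ℕ)), sq_nonneg (((d2 j : ℕ) : ℤ) - (d3 j : ℕ))]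
      apply Fin.ext; omega
    subst k1 k2
    have k3 : c1 = c2 := by
      funext j; have := e1 j; apply Fin.ext; omega
    have k4 : c1 = c4 := by
      funext j; have := e2 j; apply Fin.ext; omega
    subst k3 k4
    exact ⟨rfl, rfl, rfl⟩

lemma words (a r : ℕ) (V : Type) [Fintype V] (hV : Fintype.card V = a ^ r) :
    ∃ w : {S : Finset (Fin (2 * r)) // S.card = r} → V → V → (Fin (2 * r) → Bool × Fin a),
      (∀ S α β γ δ j, Sup ![w S α γ j, w S α δ j, w S β γ j, w S β δ j]) ∧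
      ∀ S1 S2 S3 S4 α1 α2 α3 α4 γ1 γ2 γ3 γ4,
        (∀ j, Sup ![w S1 α1 γ1 j, w S2 α2 γ2 j, w S3 α3 γ3 j, w S4 α4 γ4 j]) →
        S1 = S2 ∧ S1 = S3 ∧ S1 = S4 ∧ α1 = α2 ∧ α3 = α4 ∧ γ1 = γ3 ∧ γ2 = γ4 := by
  classical
  have h1 : ∀ S : {S : Finset (Fin (2 * r)) // S.card = r},
      Nonempty (V ≃ ({j // j ∈ S.1} → Fin a)) := fun S =>
    ⟨Fintype.equivOfCardEq (by simp [hV, S.2])⟩
  have h2 : ∀ S : {S : Finset (Fin (2 * r)) // S.card = r},
      Nonempty (V ≃ ({j // j ∉ S.1} → Fin a)) := fun S =>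
    ⟨Fintype.equivOfCardEq (by
      simp [hV, Fintype.card_subtype_compl, S.2]
      congr 1
      omega)⟩
  let E := fun S => Classical.choice (h1 S)
  let E' := fun S => Classical.choice (h2 S)
  refine ⟨fun S α γ j => if h : j ∈ S.1 then (false, E S α ⟨j, h⟩) else (true, E' S γ ⟨j, h⟩),
    ?_, ?_⟩
  · intro S α β γ δ j
    by_cases h : j ∈ S.1 <;> simp [Sup, h]
  · intro S1 S2 S3 S4 α1 α2 α3 α4 γ1 γ2 γ3 γ4 h
    have hS : ∀ j, (j ∈ S1.1 ↔ j ∈ S2.1) ∧ (j ∈ S1.1 ↔ j ∈ S3.1) ∧ (j ∈ S1.1 ↔ j ∈ S4.1) := by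
      intro j
      have := h j
      by_cases g1 : j ∈ S1.1 <;> by_cases g2 : j ∈ S2.1 <;> by_cases g3 : j ∈ S3.1 <;>
        by_cases g4 : j ∈ S4.1 <;> simp [Sup, g1, g2, g3, g4] at this ⊢
    have e2 : S1 = S2 := Subtype.ext (Finset.ext fun j => (hS j).1)
    have e3 : S1 = S3 := Subtype.ext (Finset.ext fun j => (hS j).2.1)
    have e4 : S1 = S4 := Subtype.ext (Finset.ext fun j => (hS j).2.2)
    subst e2 e3 e4
    have hin : ∀ j : {j // j ∈ S1.1}, E S1 α1 j = E S1 α2 j ∧ E S1 α3 j = E S1 α4 j := by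
      rintro ⟨j, hj⟩
      have := h j
      simpa [Sup, hj] using this
    have hout : ∀ j : {j // j ∉ S1.1}, E' S1 γ1 j = E' S1 γ3 j ∧ E' S1 γ2 j = E' S1 γ4 j := by
      rintro ⟨j, hj⟩
      have := h j
      simpa [Sup, hj] using this
    exact ⟨rfl, rfl, rfl, (E S1).injective (funext fun j => (hin j).1),
      (E S1).injective (funext fun j => (hin j).2),
      (E' S1).injective (funext fun j => (hout j).1),
      (E' S1).injective (funext fun j => (hout j).2)⟩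

lemma build (a t k : ℕ) : ∃ (κ : Type) (_ : Fintype κ)
    (φ : Fin 4 → κ → (Fin (2 * (t * k)) → Bool × Fin a)),
      (∀ y : Fin 4 → κ, (∀ j, Sup (fun i => φ i (y i) j)) ↔ ∀ i, y i = y 0) ∧
      Nat.centralBinom (t * k) * (a ^ t / 2) ^ (2 * k) ≤
        (k * (a ^ t / 2) ^ 2 + 1) ^ 2 * Fintype.card κ := by
  classical
  set N := a ^ t with hN
  set M := N / 2 with hM
  obtain ⟨P, hP1, hP2⟩ := sphere k M
  obtain ⟨w, hw1, hw2⟩ := words a (t * k) (Fin k → Fin N) (by simp [hN, pow_mul])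
  let va : (Fin k → Fin M) × (Fin k → Fin M) → Fin k → Fin N := fun p j =>
    ⟨p.1 j + p.2 j, by have := (p.1 j).2; have := (p.2 j).2; omega⟩
  let vb : (Fin k → Fin M) × (Fin k → Fin M) → Fin k → Fin N := fun p j =>
    ⟨p.2 j + (M - 1 - p.1 j), by have := (p.1 j).2; have := (p.2 j).2; omega⟩
  let vc : (Fin k → Fin M) → Fin k → Fin N := fun p j =>
    ⟨p j, by have := (p j).2; omega⟩
  have hvc : Function.Injective vc := by
    intro p q h
    funext j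
    have := congrArg Fin.val (congrFun h j)
    exact Fin.ext this
  refine ⟨{S : Finset (Fin (2 * (t * k))) // S.card = t * k} × P, inferInstance,
    ![fun z => w z.1 (va z.2.1) (vc z.2.1.1), fun z => w z.1 (va z.2.1) (vc z.2.1.2),
      fun z => w z.1 (vb z.2.1) (vc z.2.1.1), fun z => w z.1 (vb z.2.1) (vc z.2.1.2)], ?_, ?_⟩
  · intro y
    constructor
    · intro h
      have h1 := hw2 (y 0).1 (y 1).1 (y 2).1 (y 3).1 (va (y 0).2.1) (va (y 1).2.1)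
        (vb (y 2).2.1) (vb (y 3).2.1) (vc (y 0).2.1.1) (vc (y 1).2.1.2) (vc (y 2).2.1.1)
        (vc (y 3).2.1.2) (fun j => by simpa [Sup] using h j)
      obtain ⟨s1, s2, s3, s4, s5, s6, s7⟩ := h1
      have h2 := hP2 _ (y 0).2.2 _ (y 1).2.2 _ (y 2).2.2 _ (y 3).2.2
        (fun j => congrArg Fin.val (congrFun s4 j))
        (fun j => by
          have := congrArg Fin.val (congrFun s5 j)
          simp only [vb] at this
          have h3 := ((y 2).2.1.1 j).2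
          have h4 := ((y 3).2.1.1 j).2
          omega) (hvc s6) (hvc s7)
      intro i
      fin_cases i
      · rfl
      · exact Prod.ext s1.symm (Subtype.ext h2.1.symm)
      · exact Prod.ext s2.symm (Subtype.ext h2.2.1.symm)
      · exact Prod.ext s3.symm (Subtype.ext h2.2.2.symm)
    · intro h j
      have := hw1 (y 0).1 (va (y 0).2.1) (vb (y 0).2.1) (vc (y 0).2.1.1) (vc (y 0).2.1.2) j
      simpa [Sup, h 1, h 2, h 3] using this
  · rw [Fintype.card_prod, Fintype.card_coe, Fintype.card_finset_len, Fintype.card_fin,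
      Nat.centralBinom_eq_two_mul_choose]
    calc (2 * (t * k)).choose (t * k) * M ^ (2 * k)
        ≤ (2 * (t * k)).choose (t * k) * ((k * M ^ 2 + 1) ^ 2 * P.card) :=
          Nat.mul_le_mul_left _ hP1
      _ = _ := by ring

theorem core (a : ℕ) (ha : 2 ≤ a) (c : ℝ) (hc0 : 0 < c) (hc : c < 1) :
    ∃ (m : ℕ) (κ : Type) (_ : Fintype κ) (φ : Fin 4 → κ → (Fin m → Bool × Fin a)), 1 ≤ m ∧
      (∀ y : Fin 4 → κ, (∀ j, Sup (fun i => φ i (y i) j)) ↔ ∀ i, y i = y 0) ∧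
      c ^ m * (2 * a) ^ m ≤ Fintype.card κ := by
  obtain ⟨t0, ht0⟩ := exists_pow_lt_of_lt_one (show (0 : ℝ) < 1 / 18 by norm_num) hc
  set t := t0 + 1 with ht
  have hct : c ^ (2 * t) ≤ 1 / 18 :=
    (pow_le_pow_of_le_one hc0.le hc.le (by omega)).trans ht0.le
  set N := a ^ t with hN
  have hN2 : 2 ≤ N := ha.trans (Nat.le_self_pow (by omega) a)
  set M := N / 2 with hM
  have hMN : (N : ℝ) ≤ 3 * M := by
    have : N ≤ 3 * M := by omega
    exact_mod_cast this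
  have hlim := tendsto_pow_const_div_const_pow_of_one_lt 3 (show (1 : ℝ) < 2 by norm_num)
  set D : ℝ := 2 * t * ((M : ℝ) ^ 2 + 1) ^ 2 with hD
  have hD0 : 0 < D := by positivity
  obtain ⟨k, hk1, hk2⟩ := ((hlim.eventually (gt_mem_nhds (show (0 : ℝ) < 1 / D by positivity))).and
    (Filter.eventually_ge_atTop 1)).exists
  obtain ⟨κ, iκ, φ, h1, h2⟩ := build a t k
  have htk : 0 < t * k := Nat.mul_pos (by omega) hk2
  refine ⟨2 * (t * k), κ, iκ, φ, by omega, h1, ?_⟩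
  have h3 : (4 : ℝ) ^ (t * k) ≤ 2 * (t * k) * Nat.centralBinom (t * k) := by
    exact_mod_cast Nat.four_pow_le_two_mul_self_mul_centralBinom (t * k) htk
  have h4 : (Nat.centralBinom (t * k) : ℝ) * (M : ℝ) ^ (2 * k) ≤
      (k * (M : ℝ) ^ 2 + 1) ^ 2 * Fintype.card κ := by exact_mod_cast h2
  have hk1' : (1 : ℝ) ≤ k := by exact_mod_cast hk2
  have h5 : (k * (M : ℝ) ^ 2 + 1) ^ 2 ≤ (k : ℝ) ^ 2 * ((M : ℝ) ^ 2 + 1) ^ 2 := by
    rw [← mul_pow]
    apply pow_le_pow_left₀ (by positivity)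
    nlinarith
  have h6 : D * (k : ℝ) ^ 3 ≤ 2 ^ k := by
    rw [div_lt_div_iff₀ (by positivity) hD0] at hk1
    linarith
  have h7 : c ^ (2 * (t * k)) * (2 * (a : ℝ)) ^ (2 * (t * k)) =
      (c ^ (2 * t) * (N : ℝ) ^ 2) ^ k * 4 ^ (t * k) := by
    rw [hN]
    push_cast
    rw [mul_pow, mul_pow, ← pow_mul, ← pow_mul, ← pow_mul, show (4 : ℝ) = 2 ^ 2 by norm_num,
      ← pow_mul]
    ring
  have h8 : (c ^ (2 * t) * (N : ℝ) ^ 2) ^ k ≤ ((M : ℝ) ^ 2 / 2) ^ k := by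
    apply pow_le_pow_left₀ (by positivity)
    have : (N : ℝ) ^ 2 ≤ (3 * M) ^ 2 := pow_le_pow_left₀ (by positivity) hMN 2
    calc c ^ (2 * t) * (N : ℝ) ^ 2 ≤ 1 / 18 * (3 * M) ^ 2 :=
          mul_le_mul hct this (by positivity) (by norm_num)
      _ = _ := by ring
  have h9 : ((M : ℝ) ^ 2 / 2) ^ k = (M : ℝ) ^ (2 * k) / 2 ^ k := by
    rw [div_pow, ← pow_mul]
  rw [h7]
  have h10 : (0 : ℝ) < 2 ^ k := by positivity
  calc (c ^ (2 * t) * (N : ℝ) ^ 2) ^ k * 4 ^ (t * k)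
      ≤ ((M : ℝ) ^ (2 * k) / 2 ^ k) * (2 * (t * k) * Nat.centralBinom (t * k)) := by
        rw [← h9]; exact mul_le_mul h8 h3 (by positivity) (by positivity)
    _ = (2 * (t * k) / 2 ^ k) * (Nat.centralBinom (t * k) * (M : ℝ) ^ (2 * k)) := by ring
    _ ≤ (2 * (t * k) / 2 ^ k) * ((k : ℝ) ^ 2 * ((M : ℝ) ^ 2 + 1) ^ 2 * Fintype.card κ) := by
        apply mul_le_mul_of_nonneg_left _ (by positivity)
        exact h4.trans (mul_le_mul_of_nonneg_right h5 (by positivity))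
    _ = (D * (k : ℝ) ^ 3 / 2 ^ k) * Fintype.card κ := by rw [hD]; ring
    _ ≤ 1 * Fintype.card κ := by
        apply mul_le_mul_of_nonneg_right _ (by positivity)
        rw [div_le_one h10]; exact h6
    _ = _ := one_mul _

lemma inj_of_diag {κ X : Type} {m : ℕ} (R : (Fin 4 → X) → Prop) (φ : Fin 4 → κ → (Fin m → X))
    (h : ∀ y : Fin 4 → κ, (∀ j, R (fun i => φ i (y i) j)) ↔ ∀ i, y i = y 0) (i : Fin 4) :
    Function.Injective (φ i) := by
  classical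
  intro p q hpq
  have h1 := (h (fun _ => p)).2 (fun _ => rfl)
  have h2 : ∀ i', φ i' (Function.update (fun _ => p) i q i') = φ i' p := by
    intro i'
    by_cases e : i' = i
    · subst e; simp [hpq]
    · simp [Function.update_of_ne e]
  have h3 := (h (Function.update (fun _ => p) i q)).1 (fun j => by simp only [h2]; exact h1 j)
  obtain ⟨i', hi'⟩ := exists_ne i
  have h4 := (h3 i).trans (h3 i').symm
  simpa [Function.update_of_ne hi', eq_comm] using h4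

end Pool.Agent.H.MP_a9d09b_co
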