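import Mathlib
import Pool.Agent.H.MP_a9d09b_co.Core

namespace Pool.Agent.H.MP_a9d09b_co

open Finset

/-- parametrisation of the support -/
def psi {a : ℕ} (p : Bool × Fin a × Fin a) : Fin 4 → Bool × Fin a :=
  if p.1 then ![(true, p.2.1), (true, p.2.2), (true, p.2.1), (true, p.2.2)]
  else ![(false, p.2.1), (false, p.2.1), (false, p.2.2), (false, p.2.2)]

open Classical in
lemma form_sup {F : Type*} [CommRing F] {a : ℕ} (Y : Fin 4 → Bool × Fin a → F) :
    ∑ x : Fin 4 → Bool × Fin a, (if Sup x then (1 : F) else 0) * ∏ i, Y i (x i) =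
      (∑ z, Y 0 (false, z) * Y 1 (false, z)) * (∑ z, Y 2 (false, z) * Y 3 (false, z)) +
      (∑ z, Y 0 (true, z) * Y 2 (true, z)) * (∑ z, Y 1 (true, z) * Y 3 (true, z)) := by
  have h1 : ∑ p : Bool × Fin a × Fin a, ∏ i, Y i (psi p i) =
      ∑ x : Fin 4 → Bool × Fin a, (if Sup x then (1 : F) else 0) * ∏ i, Y i (x i) := by
    apply Finset.sum_of_injOn psi
    · rintro ⟨b, z, w⟩ - ⟨b', z', w'⟩ - h
      have h0 := congrFun h 0
      have h3 := congrFun h 3
      cases b <;> cases b' <;> simp [psi] at h0 h3 ⊢ <;> exact ⟨h0, h3⟩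
    · intro _ _; exact mem_univ _
    · intro x _ hx
      rw [if_neg, zero_mul]
      rintro (⟨g1, g2, g3, g4⟩ | ⟨g1, g2, g3, g4⟩)
      · apply hx
        refine ⟨(false, (x 0).2, (x 2).2), by simp, ?_⟩
        have e0 : (false, (x 0).2) = x 0 := Prod.ext g1.symm rfl
        have e2 : (false, (x 2).2) = x 2 := Prod.ext g3.symm rfl
        funext i
        fin_cases i
        · exact e0
        · exact e0.trans g2
        · exact e2
        · exact e2.trans g4
      · apply hx
        refine ⟨(true, (x 0).2, (x 1).2), by simp, ?_⟩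
        have e0 : (true, (x 0).2) = x 0 := Prod.ext g1.symm rfl
        have e2 : (true, (x 1).2) = x 1 := Prod.ext g3.symm rfl
        funext i
        fin_cases i
        · exact e0
        · exact e2
        · exact e0.trans g2
        · exact e2.trans g4
    · rintro ⟨b, z, w⟩ -
      rw [if_pos, one_mul]
      cases b <;> simp [psi, Sup]
  rw [← h1, Fintype.sum_prod_type, Fintype.sum_bool, add_comm, Finset.sum_mul_sum,
    Finset.sum_mul_sum, Fintype.sum_prod_type, Fintype.sum_prod_type]
  congr 1
  all_goals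
    apply Finset.sum_congr rfl
    intro z _
    apply Finset.sum_congr rfl
    intro w _
    simp [psi, Fin.prod_univ_succ]
    ring

end Pool.Agent.H.MP_a9d09b_co
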