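import Mathlib
import Pool.Agent.H.MP_a9d09b_co.Form


namespace Pool.Agent.H.MP_a9d09b_co

open Finset

/-- multilinear form -/
def fm {F ι : Type} [CommRing F] [Fintype ι] (A : (Fin 4 → ι) → F) (X : Fin 4 → ι → F) : F :=
  ∑ x : Fin 4 → ι, A x * ∏ i, X i (x i)

lemma sum_update {V M : Type*} [Fintype V] [AddCommMonoid M] (i : Fin 4) (f : (Fin 4 → V) → M) :
    ∑ X : Fin 4 → V, ∑ Y : V, f (Function.update X i Y) = Fintype.card V • ∑ X, f X := by
  let e : (Fin 4 → V) × V ≃ (Fin 4 → V) × V :=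
    Function.Involutive.toPerm (fun q => (Function.update q.1 i q.2, q.1 i)) (fun q => by simp)
  rw [← Fintype.sum_prod_type']
  have h1 : ∑ q : (Fin 4 → V) × V, f (Function.update q.1 i q.2) =
      ∑ q : (Fin 4 → V) × V, f q.1 := e.sum_comp (fun q => f q.1)
  rw [h1, Fintype.sum_prod_type]
  simp [Finset.smul_sum]

lemma fm_update {F ι : Type} [CommRing F] [Fintype ι] (A : (Fin 4 → ι) → F)
    (X : Fin 4 → ι → F) (i : Fin 4) (Y : ι → F) :
    fm A (Function.update X i Y) =
      ∑ x : Fin 4 → ι, Y (x i) * (A x * ∏ j ∈ univ.erase i, X j (x j)) := by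
  unfold fm
  apply Finset.sum_congr rfl
  intro x _
  rw [← Finset.mul_prod_erase univ _ (mem_univ i), Function.update_self,
    Finset.prod_congr rfl (fun j hj => by rw [Function.update_of_ne (Finset.ne_of_mem_erase hj)])]
  ring

/-- coefficient of the linear form in slot `i` -/
def co {F ι : Type} [CommRing F] [Fintype ι] [DecidableEq ι] (A : (Fin 4 → ι) → F)
    (i : Fin 4) (X : Fin 4 → ι → F) (z : ι) : F :=
  ∑ x : Fin 4 → ι, if x i = z then A x * ∏ j ∈ univ.erase i, X j (x j) else 0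

lemma fm_update' {F ι : Type} [CommRing F] [Fintype ι] [DecidableEq ι] (A : (Fin 4 → ι) → F)
    (X : Fin 4 → ι → F) (i : Fin 4) (Y : ι → F) :
    fm A (Function.update X i Y) = ∑ z, Y z * co A i X z := by
  rw [fm_update]
  simp only [co, Finset.mul_sum]
  rw [Finset.sum_comm]
  apply Finset.sum_congr rfl
  intro x _
  simp

variable {p : ℕ} [hp : Fact p.Prime]

lemma sum_chi (b : ZMod p) :
    ∑ t : ZMod p, ZMod.stdAddChar (t * b) = if b = 0 then (p : ℂ) else 0 := by
  have := AddChar.sum_mulShift b (ZMod.isPrimitive_stdAddChar p)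
  rw [this]
  simp [ZMod.card]

lemma chi_sum {ι : Type*} (s : Finset ι) (f : ι → ZMod p) :
    ZMod.stdAddChar (∑ z ∈ s, f z) = ∏ z ∈ s, ZMod.stdAddChar (f z) := by
  classical
  induction s using Finset.induction_on with
  | empty => simp
  | insert a s ha ih => rw [Finset.sum_insert ha, Finset.prod_insert ha, AddChar.map_add_eq_mul, ih]

/-- exponential sum -/
noncomputable def SS {ι : Type} [Fintype ι] [DecidableEq ι] (A : (Fin 4 → ι) → ZMod p) : ℂ :=
  ∑ X : Fin 4 → ι → ZMod p, ZMod.stdAddChar (fm A X)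

lemma SS_eq {ι : Type} [Fintype ι] [DecidableEq ι] (A : (Fin 4 → ι) → ZMod p) (i : Fin 4) :
    SS A = ((univ.filter (fun X : Fin 4 → ι → ZMod p => ∀ z, co A i X z = 0)).card : ℂ) := by
  have h1 := sum_update i (fun X : Fin 4 → ι → ZMod p => ZMod.stdAddChar (fm A X))
  have h2 : ∀ X : Fin 4 → ι → ZMod p,
      ∑ Y : ι → ZMod p, ZMod.stdAddChar (fm A (Function.update X i Y)) =
        (Fintype.card (ι → ZMod p) : ℂ) * if ∀ z, co A i X z = 0 then 1 else 0 := by
    intro X
    simp only [fm_update', chi_sum]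
    rw [← Fintype.prod_sum (fun z t => ZMod.stdAddChar (t * co A i X z))]
    simp only [sum_chi]
    rw [Finset.prod_ite_zero]
    simp [ZMod.card]
  simp only [h2, ← Finset.mul_sum, nsmul_eq_mul] at h1
  have h3 : (Fintype.card (ι → ZMod p) : ℂ) ≠ 0 := by exact_mod_cast Fintype.card_ne_zero
  have h4 := mul_left_cancel₀ h3 h1
  rw [SS, ← h4, Finset.sum_boole]

lemma SS_pos {ι : Type} [Fintype ι] [DecidableEq ι] (A : (Fin 4 → ι) → ZMod p) :
    0 < (SS A).re := by
  rw [SS_eq A 0, Complex.natCast_re]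
  have : 0 < (univ.filter (fun X : Fin 4 → ι → ZMod p => ∀ z, co A 0 X z = 0)).card := by
    apply Finset.card_pos.2
    refine ⟨0, ?_⟩
    simp [co]
  exact_mod_cast this

lemma SS_mono1 {ι : Type} [Fintype ι] [DecidableEq ι] (A : (Fin 4 → ι) → ZMod p) (i : Fin 4)
    (D : ι → Prop) [DecidablePred D] :
    (SS A).re ≤ (SS (fun x => if D (x i) then A x else 0)).re := by
  rw [SS_eq _ i, SS_eq _ i, Complex.natCast_re, Complex.natCast_re]
  apply Nat.cast_le.2
  apply Finset.card_le_card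
  intro X hX
  simp only [mem_filter, mem_univ, true_and] at hX ⊢
  intro z
  by_cases hz : D z
  · rw [← hX z]
    unfold co
    apply Finset.sum_congr rfl
    intro x _
    by_cases hx : x i = z
    · simp [hx, hz]
    · simp [hx]
  · unfold co
    apply Finset.sum_eq_zero
    intro x _
    by_cases hx : x i = z
    · simp [hx, hz]
    · simp [hx]

lemma SS_mono {ι : Type} [Fintype ι] [DecidableEq ι] (A : (Fin 4 → ι) → ZMod p)
    (D : Fin 4 → ι → Prop) [∀ i, DecidablePred (D i)] (T : Finset (Fin 4)) :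
    (SS A).re ≤ (SS (fun x => if ∀ i ∈ T, D i (x i) then A x else 0)).re := by
  induction T using Finset.induction_on with
  | empty => simp
  | insert a s ha ih =>
    refine ih.trans ((SS_mono1 _ a (D a)).trans (le_of_eq ?_))
    congr 2
    funext x
    by_cases h1 : D a (x a) <;> simp [h1]

/-- number of triples with zero product -/
def n0 (p : ℕ) [Fact p.Prime] : ℕ := (univ.filter (fun y : Fin 3 → ZMod p => ∏ i, y i = 0)).card

lemma n0_pos : 0 < n0 p := Finset.card_pos.2 ⟨0, by simp⟩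

lemma n0_lt : n0 p < p ^ 3 := by
  have : n0 p < (univ : Finset (Fin 3 → ZMod p)).card := by
    apply Finset.card_lt_card
    rw [Finset.ssubset_iff_of_subset (Finset.subset_univ _)]
    exact ⟨1, mem_univ _, by simp⟩
  simpa [ZMod.card] using this

lemma sum_one : ∑ y : Fin 4 → ZMod p, ZMod.stdAddChar (∏ i, y i) = ((p * n0 p : ℕ) : ℂ) := by
  rw [← (Fin.consEquiv (fun _ : Fin 4 => ZMod p)).sum_comp, Fintype.sum_prod_type_right]
  have : ∀ y : Fin 3 → ZMod p, ∑ t : ZMod p,
      ZMod.stdAddChar (∏ i, (Fin.consEquiv (fun _ : Fin 4 => ZMod p)) (t, y) i) =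
      (p : ℂ) * if ∏ i, y i = 0 then 1 else 0 := by
    intro y
    have h1 : ∀ t : ZMod p, ∏ i, (Fin.consEquiv (fun _ : Fin 4 => ZMod p)) (t, y) i =
        t * ∏ i, y i := fun t => by rw [Fin.prod_univ_succ]; rfl
    simp only [h1, sum_chi]
    simp
  simp only [this, ← Finset.mul_sum, Finset.sum_boole]
  simp [n0]

lemma diag_sum {ι κ : Type} [Fintype ι] [DecidableEq ι] [Fintype κ] (φ : Fin 4 → κ → ι)
    (hφ : ∀ i, Function.Injective (φ i)) :
    ∑ X : Fin 4 → ι → ZMod p, ZMod.stdAddChar (∑ z : κ, ∏ i, X i (φ i z)) =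
      ((p * n0 p : ℕ) : ℂ) ^ Fintype.card κ *
        ((p ^ 4 : ℕ) : ℂ) ^ (Fintype.card ι - Fintype.card κ) := by
  classical
  have h1 := fun i => Equiv.Perm.exists_extending_pair (φ i) (φ 0) (hφ i) (hφ 0)
  choose σ hσ using h1
  let e : (ι → Fin 4 → ZMod p) ≃ (Fin 4 → ι → ZMod p) :=
    { toFun := fun W i u => W (σ i u) i
      invFun := fun X u i => X i ((σ i).symm u)
      left_inv := fun W => by funext u i; simp
      right_inv := fun X => by funext i u; simp }
  rw [← e.sum_comp]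
  have h2 : ∀ W : ι → Fin 4 → ZMod p, ZMod.stdAddChar (∑ z : κ, ∏ i, e W i (φ i z)) =
      ∏ u : ι, (if u ∈ univ.image (φ 0) then ZMod.stdAddChar (∏ i, W u i) else 1) := by
    intro W
    rw [chi_sum, Finset.prod_ite_mem, Finset.univ_inter,
      Finset.prod_image (fun a _ b _ h => hφ 0 h)]
    apply Finset.prod_congr rfl
    intro z _
    congr 1
    apply Finset.prod_congr rfl
    intro i _
    show W (σ i (φ i z)) i = _
    rw [hσ]
  simp only [h2]
  rw [← Fintype.prod_sum (fun (u : ι) (y : Fin 4 → ZMod p) =>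
    if u ∈ univ.image (φ 0) then ZMod.stdAddChar (∏ i, y i) else 1)]
  have h3 : ∀ u : ι, ∑ y : Fin 4 → ZMod p,
      (if u ∈ univ.image (φ 0) then ZMod.stdAddChar (∏ i, y i) else 1) =
      if u ∈ univ.image (φ 0) then ((p * n0 p : ℕ) : ℂ) else ((p ^ 4 : ℕ) : ℂ) := by
    intro u
    split_ifs
    · exact sum_one
    · simp [ZMod.card]
  simp only [h3]
  rw [Finset.prod_ite, Finset.prod_const, Finset.prod_const, Finset.filter_mem_eq_inter,
    Finset.univ_inter, Finset.filter_not, Finset.filter_mem_eq_inter, Finset.univ_inter,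
    Finset.card_univ_diff, Finset.card_image_of_injective _ (hφ 0), Finset.card_univ]

lemma fm_diag {F ι κ : Type} [CommRing F] [Fintype ι] [Fintype κ] [DecidableEq κ]
    (B : (Fin 4 → ι) → F) (φ : Fin 4 → κ → ι) (hφ : ∀ i, Function.Injective (φ i))
    (h0 : ∀ x, (¬ ∀ i, ∃ z, φ i z = x i) → B x = 0)
    (h1 : ∀ y : Fin 4 → κ, B (fun i => φ i (y i)) = if ∀ i, y i = y 0 then 1 else 0)
    (X : Fin 4 → ι → F) : fm B X = ∑ z : κ, ∏ i, X i (φ i z) := by
  classical
  unfold fm
  symm
  apply Finset.sum_of_injOn (fun z i => φ i z)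
  · intro a _ b _ h
    exact hφ 0 (congrFun h 0)
  · intro _ _; exact mem_univ _
  · intro x _ hx
    by_cases h2 : ∀ i, ∃ z, φ i z = x i
    · choose y hy using h2
      have h3 : x = fun i => φ i (y i) := funext fun i => (hy i).symm
      have h4 : B x = 0 := by
        rw [h3, h1, if_neg]
        intro h5
        apply hx
        refine ⟨y 0, by simp, ?_⟩
        funext i
        show φ i (y 0) = x i
        rw [← h5 i, hy]
      rw [h4, zero_mul]
    · rw [h0 x h2, zero_mul]
  · intro z _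
    rw [h1 (fun _ => z)]
    simp

lemma SS_le {ι κ : Type} [Fintype ι] [DecidableEq ι] [Fintype κ] [DecidableEq κ]
    (A : (Fin 4 → ι) → ZMod p) (φ : Fin 4 → κ → ι) (hφ : ∀ i, Function.Injective (φ i))
    (h1 : ∀ y : Fin 4 → κ, A (fun i => φ i (y i)) = if ∀ i, y i = y 0 then 1 else 0) :
    (SS A).re ≤ ((p * n0 p : ℕ) : ℝ) ^ Fintype.card κ *
        ((p ^ 4 : ℕ) : ℝ) ^ (Fintype.card ι - Fintype.card κ) := by
  classical
  refine (SS_mono A (fun i u => ∃ z, φ i z = u) univ).trans (le_of_eq ?_)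
  unfold SS
  simp only [fm_diag (fun x => if ∀ i ∈ (univ : Finset (Fin 4)), ∃ z, φ i z = x i then A x else 0)
    φ hφ (fun x hx => by simp only [mem_univ, true_implies]; rw [if_neg hx])
    (fun y => by simp [h1 y])]
  rw [diag_sum φ hφ]
  norm_cast

lemma SS_id {ι : Type} [Fintype ι] [DecidableEq ι] (A : (Fin 4 → ι) → ZMod p)
    (h1 : ∀ y : Fin 4 → ι, A y = if ∀ i, y i = y 0 then 1 else 0) :
    (SS A).re = ((p * n0 p : ℕ) : ℝ) ^ Fintype.card ι := by
  unfold SS
  simp only [fm_diag A (fun _ z => z) (fun _ => Function.injective_id) (fun x hx => by simp at hx)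
    h1]
  rw [diag_sum (fun _ z => z) (fun _ => Function.injective_id), Nat.sub_self, pow_zero, mul_one]
  norm_cast

lemma ker_card {V W : Type*} [AddCommGroup V] [AddCommGroup W] [Fintype V] [Fintype W]
    [DecidableEq W] (f : V →+ W) :
    Fintype.card V ≤ (univ.filter (fun v => f v = 0)).card * Fintype.card W := by
  classical
  have h1 := AddSubgroup.card_eq_card_quotient_mul_card_addSubgroup f.ker
  have h2 : Nat.card (V ⧸ f.ker) ≤ Nat.card W :=
    Nat.card_le_card_of_injective _ (QuotientAddGroup.kerLift_injective f)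
  have h3 : Nat.card f.ker = (univ.filter (fun v => f v = 0)).card := by
    rw [Nat.card_eq_fintype_card, Fintype.card_subtype]
    simp only [AddMonoidHom.mem_ker]
  rw [← Nat.card_eq_fintype_card, ← Nat.card_eq_fintype_card, h1, h3, mul_comm]
  exact Nat.mul_le_mul_left _ h2

lemma SS_ge {ι : Type} [Fintype ι] [DecidableEq ι] (A : (Fin 4 → ι) → ZMod p)
    (g1 g2 : (Fin 4 → ι → ZMod p) → ZMod p) (l1 l2 : (Fin 4 → ι → ZMod p) → ι → ZMod p)
    (hA : ∀ X, fm A X = g1 X * (∑ z, l1 X z * X 3 z) + g2 X * (∑ z, l2 X z * X 3 z))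
    (h1 : ∀ X Y, l1 (Function.update X 0 Y) = l1 X ∧ l1 (Function.update X 3 Y) = l1 X)
    (h2 : ∀ X Y, l2 (Function.update X 0 Y) = l2 X ∧ l2 (Function.update X 3 Y) = l2 X) :
    (Fintype.card (Fin 4 → ι → ZMod p) : ℝ) ≤ (SS A).re * p ^ 2 := by
  classical
  rw [SS_eq A 0, Complex.natCast_re]
  let P : (Fin 4 → ι → ZMod p) → Prop := fun X =>
    ∑ z, l1 X z * X 3 z = 0 ∧ ∑ z, l2 X z * X 3 z = 0
  have h3 : (univ.filter P).card ≤
      (univ.filter (fun X : Fin 4 → ι → ZMod p => ∀ z, co A 0 X z = 0)).card := by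
    apply Finset.card_le_card
    intro X hX
    simp only [mem_filter, mem_univ, true_and, P] at hX ⊢
    intro z
    have h4 := fm_update' A X 0 (Pi.single z 1)
    rw [hA, (h1 X _).1, (h2 X _).1, Function.update_of_ne (by decide), hX.1, hX.2] at h4
    simpa [Pi.single_apply] using h4.symm
  have h5 := sum_update 3 (fun X : Fin 4 → ι → ZMod p => if P X then 1 else 0)
  have h6 : ∀ X : Fin 4 → ι → ZMod p, Fintype.card (ι → ZMod p) ≤
      (∑ Y : ι → ZMod p, if P (Function.update X 3 Y) then 1 else 0) * p ^ 2 := by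
    intro X
    let f : (ι → ZMod p) →+ ZMod p × ZMod p :=
      { toFun := fun Y => (∑ z, l1 X z * Y z, ∑ z, l2 X z * Y z)
        map_zero' := by simp
        map_add' := fun Y Y' => by simp [mul_add, Finset.sum_add_distrib] }
    have h7 := ker_card f
    simp only [Fintype.card_prod, ZMod.card] at h7
    rw [← Finset.card_filter, pow_two]
    convert h7 using 4 with Y
    simp [P, f, (h1 X Y).2, (h2 X Y).2]
  have h8 := Finset.sum_le_sum (fun X (_ : X ∈ univ) => h6 X)
  rw [← Finset.sum_mul, h5, ← Finset.card_filter] at h8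
  simp only [Finset.sum_const, card_univ, smul_eq_mul] at h8
  have h9 : Fintype.card (Fin 4 → ι → ZMod p) ≤ (univ.filter P).card * p ^ 2 := by
    apply Nat.le_of_mul_le_mul_left _ (Fintype.card_pos (α := ι → ZMod p))
    rw [mul_comm, ← mul_assoc]
    exact h8
  exact_mod_cast h9.trans (Nat.mul_le_mul_right _ h3)

end Pool.Agent.H.MP_a9d09b_co
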