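import Mathlib

namespace Pool.Agent.H.MP_a9d09b_co

open Finset

lemma big_support {F κ J : Type*} [Field F] [Fintype κ] [DecidableEq κ] [DecidableEq F]
    (D : Finset κ) (U : Finset J) (γ : J → κ → F) :
    ∃ v : κ → F, (∀ j ∈ U, ∑ z, v z * γ j z = 0) ∧
      D.card ≤ (D.filter (fun z => v z ≠ 0)).card + U.card := by
  classical
  have hex : ∃ n, ∃ v : κ → F, (∀ j ∈ U, ∑ z, v z * γ j z = 0) ∧
      (D.filter (fun z => v z = 0)).card = n := ⟨_, 0, by simp, rfl⟩
  obtain ⟨v, hv, hn⟩ := Nat.find_spec hex
  refine ⟨v, hv, ?_⟩
  by_contra hcon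
  push Not at hcon
  set Z := D.filter (fun z => v z = 0) with hZ
  have hc := Finset.card_filter_add_card_filter_not (s := D) (fun z => v z = 0)
  have hlt : U.card < Z.card := by
    simp only [ne_eq] at hcon
    rw [← hZ] at hc
    omega
  have hdep : ¬ LinearIndependent F (fun z : Z => fun j : U => γ j z) := by
    intro h
    have := h.fintype_card_le_finrank
    simp at this
    omega
  obtain ⟨u, hu, z0, hz0⟩ := Fintype.not_linearIndependent_iff.1 hdep
  let u' : κ → F := fun z => if h : z ∈ Z then u ⟨z, h⟩ else 0
  have hu' : ∀ j ∈ U, ∑ z, u' z * γ j z = 0 := by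
    intro j hj
    have h1 := congrFun hu ⟨j, hj⟩
    simp only [Finset.sum_apply, Pi.smul_apply, smul_eq_mul, Pi.zero_apply] at h1
    rw [← h1, ← Finset.sum_subset (Finset.subset_univ Z), ← Finset.sum_coe_sort Z]
    · apply Finset.sum_congr rfl
      intro z _
      simp [u', z.2]
    · intro z _ hz
      simp [u', hz]
  have hmin := Nat.find_min' hex ⟨v + u', fun j hj => by
    simp only [Pi.add_apply, add_mul, Finset.sum_add_distrib, hv j hj, hu' j hj, add_zero], rfl⟩
  rw [← hn] at hmin
  have hss : D.filter (fun z => (v + u') z = 0) ⊂ Z := by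
    rw [Finset.ssubset_iff_of_subset]
    · refine ⟨z0.1, z0.2, ?_⟩
      have h2 := (Finset.mem_filter.1 z0.2).2
      simp [u', z0.2, h2, hz0]
    · intro z hz
      rw [Finset.mem_filter] at hz ⊢
      refine ⟨hz.1, ?_⟩
      by_contra h3
      have h4 : z ∉ Z := fun h => h3 (Finset.mem_filter.1 h).2
      apply h3
      simpa [u', h4] using hz.2
  exact absurd (Finset.card_lt_card hss) (not_lt.2 hmin)

theorem naslund {F κ J : Type*} [Field F] [Fintype κ] [DecidableEq κ] [DecidableEq F] (d : ℕ) :
    ∀ (w : κ → F) (s : Finset J) (S : J → Finset (Fin (d + 1)))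
      (g h : J → (Fin (d + 1) → κ) → F),
      (∀ j ∈ s, (S j).Nonempty ∧ S j ≠ univ) →
      (∀ j ∈ s, ∀ x y, (∀ i ∈ S j, x i = y i) → g j x = g j y) →
      (∀ j ∈ s, ∀ x y, (∀ i ∉ S j, x i = y i) → h j x = h j y) →
      (∀ y, (if ∀ i, y i = y 0 then w (y 0) else 0) = ∑ j ∈ s, g j y * h j y) →
      (univ.filter (fun z => w z ≠ 0)).card ≤ s.card := by
  classical
  induction d with
  | zero =>
    intro w s S g h hS _ _ hT
    have hs : s = ∅ := by
      apply Finset.eq_empty_of_forall_notMem
      intro j hj
      obtain ⟨⟨i, hi⟩, h2⟩ := hS j hj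
      apply h2
      ext i'
      have e : i' = i := Fin.ext (by have := i.2; have := i'.2; omega)
      simp only [e, hi, mem_univ]
    subst hs
    have : univ.filter (fun z => w z ≠ 0) = ∅ := by
      apply Finset.filter_eq_empty_iff.2
      intro z _
      simpa using hT (fun _ => z)
    simp [this]
  | succ d ih =>
    have main : ∀ (w : κ → F) (s : Finset J) (S : J → Finset (Fin (d + 2)))
        (g h : J → (Fin (d + 2) → κ) → F),
        (∀ j ∈ s, 0 ∈ S j ∧ S j ≠ univ) →
        (∀ j ∈ s, ∀ x y, (∀ i ∈ S j, x i = y i) → g j x = g j y) →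
        (∀ j ∈ s, ∀ x y, (∀ i ∉ S j, x i = y i) → h j x = h j y) →
        (∀ y, (if ∀ i, y i = y 0 then w (y 0) else 0) = ∑ j ∈ s, g j y * h j y) →
        (univ.filter (fun z => w z ≠ 0)).card ≤ s.card := by
      intro w s S g h hS hg hh hT
      obtain ⟨v, hv1, hv2⟩ := big_support (univ.filter (fun z => w z ≠ 0))
        (s.filter (fun j => S j = {0})) (fun j z => g j (fun _ => z))
      have hcons : ∀ j ∈ s, ∀ z z' (y : Fin (d + 1) → κ),
          h j (Fin.cons z y) = h j (Fin.cons z' y) := by
        intro j hj z z' y
        apply hh j hj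
        intro i hi
        rcases Fin.eq_zero_or_eq_succ i with rfl | ⟨i', rfl⟩
        · exact absurd (hS j hj).1 hi
        · simp
      have h1 := ih (fun z => v z * w z) (s.filter (fun j => ¬ S j = {0}))
        (fun j => univ.filter (fun i => i.succ ∈ S j))
        (fun j y => ∑ z, v z * g j (Fin.cons z y)) (fun j y => h j (Fin.cons (y 0) y)) ?_ ?_ ?_ ?_
      · have h2 := Finset.card_filter_add_card_filter_not (s := s) (fun j => S j = {0})
        have h3 : (univ.filter (fun z => w z ≠ 0)).filter (fun z => v z ≠ 0) =
            univ.filter (fun z => v z * w z ≠ 0) := by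
          ext z; simp [and_comm]
        rw [h3] at hv2
        omega
      · intro j hj
        obtain ⟨hj1, hj2⟩ := Finset.mem_filter.1 hj
        constructor
        · by_contra h4
          apply hj2
          rw [Finset.not_nonempty_iff_eq_empty, Finset.filter_eq_empty_iff] at h4
          ext i
          rcases Fin.eq_zero_or_eq_succ i with rfl | ⟨i', rfl⟩
          · simp [(hS j hj1).1]
          · simp [h4 (mem_univ i'), Fin.succ_ne_zero]
        · intro h4
          apply (hS j hj1).2
          ext i
          rcases Fin.eq_zero_or_eq_succ i with rfl | ⟨i', rfl⟩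
          · simp [(hS j hj1).1]
          · have : i' ∈ univ.filter (fun i : Fin (d + 1) => i.succ ∈ S j) := by
              rw [h4]; exact mem_univ _
            simpa using this
      · intro j hj x y hxy
        apply Finset.sum_congr rfl
        intro z _
        congr 1
        apply hg j (Finset.mem_filter.1 hj).1
        intro i hi
        rcases Fin.eq_zero_or_eq_succ i with rfl | ⟨i', rfl⟩
        · simp
        · simpa using hxy i' (by simpa using hi)
      · intro j hj x y hxy
        rw [hcons j (Finset.mem_filter.1 hj).1 (x 0) (y 0)]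
        apply hh j (Finset.mem_filter.1 hj).1
        intro i hi
        rcases Fin.eq_zero_or_eq_succ i with rfl | ⟨i', rfl⟩
        · simp
        · simpa using hxy i' (by simpa using hi)
      · intro y
        have h5 : ∑ z, v z * (∑ j ∈ s, g j (Fin.cons z y) * h j (Fin.cons z y)) =
            (if ∀ i, y i = y 0 then v (y 0) * w (y 0) else 0) := by
          simp only [← hT]
          rw [Finset.sum_eq_single (y 0)]
          · simp [Fin.forall_fin_succ]
          · intro z _ hz
            rw [if_neg, mul_zero]
            intro h6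
            exact hz (by simpa using (h6 1).symm)
          · simp
        rw [← h5]
        have h7 : ∑ z, v z * (∑ j ∈ s, g j (Fin.cons z y) * h j (Fin.cons z y)) =
            ∑ j ∈ s, (∑ z, v z * g j (Fin.cons z y)) * h j (Fin.cons (y 0) y) := by
          simp only [Finset.mul_sum, Finset.sum_mul]
          rw [Finset.sum_comm]
          apply Finset.sum_congr rfl
          intro j hj
          apply Finset.sum_congr rfl
          intro z _
          rw [hcons j hj z (y 0), mul_assoc]
        rw [h7, ← Finset.sum_filter_add_sum_filter_not s (fun j => S j = {0}),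
          Finset.sum_eq_zero, zero_add]
        intro j hj
        have h8 : ∑ z, v z * g j (Fin.cons z y) = 0 := by
          rw [← hv1 j hj]
          apply Finset.sum_congr rfl
          intro z _
          congr 1
          apply hg j (Finset.mem_filter.1 hj).1
          intro i hi
          rw [(Finset.mem_filter.1 hj).2, Finset.mem_singleton] at hi
          subst hi
          simp
        rw [h8, zero_mul]
    intro w s S g h hS hg hh hT
    refine main w s (fun j => if 0 ∈ S j then S j else (S j)ᶜ)
      (fun j => if 0 ∈ S j then g j else h j) (fun j => if 0 ∈ S j then h j else g j) ?_ ?_ ?_ ?_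
    · intro j hj
      by_cases h0 : 0 ∈ S j
      · simp [h0, (hS j hj).2]
      · simp only [h0, if_false, mem_compl, not_false_eq_true, true_and]
        intro h1
        rw [Finset.compl_eq_univ_iff] at h1
        exact (hS j hj).1.ne_empty h1
    · intro j hj x y hxy
      by_cases h0 : 0 ∈ S j
      · simp only [h0, if_true] at hxy ⊢
        exact hg j hj x y hxy
      · simp only [h0, if_false, mem_compl] at hxy ⊢
        exact hh j hj x y hxy
    · intro j hj x y hxy
      by_cases h0 : 0 ∈ S j
      · simp only [h0, if_true] at hxy ⊢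
        exact hh j hj x y hxy
      · simp only [h0, if_false, mem_compl, not_not] at hxy ⊢
        exact hg j hj x y hxy
    · intro y
      rw [hT]
      apply Finset.sum_congr rfl
      intro j _
      by_cases h0 : 0 ∈ S j <;> simp [h0, mul_comm]

end Pool.Agent.H.MP_a9d09b_co
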